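import Mathlib
import Pool.Agent.Q64.AC
import Pool.Agent.Helper27.Har.P_global_ode

/-!
# Exponential stability and L_2-stability of time-varying Lur'e systems are not equivalent
-/

set_option autoImplicit false

open MeasureTheory Filter Topology Set Polynomial
open scoped Matrix ENNReal

namespace Pool.Agent.Results.MP_d56d33_an.LureEquivalenceFails

/-- The state space `ℝⁿ` with the Euclidean norm. -/
abbrev E (n : ℕ) : Type := EuclideanSpace ℝ (Fin n)

/-- The vector `b = (0, …, 0, 1)`. -/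
def bvec (n : ℕ) (i : Fin n) : ℝ := if (i : ℕ) + 1 = n then 1 else 0

/-- The vector `c = (q₀, …, q_m, 0, …, 0)`. -/
noncomputable def cvec (n : ℕ) (q : ℝ[X]) (i : Fin n) : ℝ := q.coeff i

/-- The companion matrix of `p`: ones on the superdiagonal, last row `(-p₀, …, -p_{n-1})`. -/
noncomputable def companion (n : ℕ) (p : ℝ[X]) : Matrix (Fin n) (Fin n) ℝ :=
  fun i j => if (i : ℕ) + 1 = n then -p.coeff j else if (j : ℕ) = i + 1 then 1 else 0

/-- The admissible pairs `p`, `q`: `p` is monic of degree `n ≥ 1` and `q` has degree `< n`. -/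
def AdmissiblePolys (n : ℕ) (p q : ℝ[X]) : Prop :=
  p.Monic ∧ p.natDegree = n ∧ q.natDegree < n

/-- The admissible gains `k`: absolutely continuous on `[0, ∞)` and bounded below by a positive
constant. -/
def AdmissibleGain (k : ℝ → ℝ) : Prop :=
  (∀ T, 0 < T → AbsolutelyContinuousOnInterval k 0 T) ∧ ∃ e > 0, ∀ t, 0 ≤ t → e ≤ k t

/-- The admissible nonlinearities `φ`. -/
def AdmissibleNonlinearity (φ : ℝ → ℝ) : Prop :=
  φ 0 = 0 ∧ ∃ h₁ h₂ : ℝ, 0 < h₁ ∧ h₁ < h₂ ∧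
    ∀ s : ℝ, s ≠ 0 → h₁ * s ^ 2 ≤ s * φ s ∧ s * φ s ≤ h₂ * s ^ 2

/-- `x` is a solution on `[t₀, T)`, `t₀ < T ≤ ∞`, of
`x' = A_o x - k(t) b φ(cᵀ x) + f(t) b`: it is locally absolutely continuous on `[t₀, T)`, the
function `φ(cᵀ x(t))` is locally integrable there, and the equation holds almost everywhere. -/
structure IsSolution {n : ℕ} (p q : ℝ[X]) (k φ f : ℝ → ℝ) (t₀ : ℝ) (T : EReal) (x : ℝ → E n) :
    Prop where
  lt : (t₀ : EReal) < T
  absCont : ∀ s : ℝ, t₀ ≤ s → (s : EReal) < T → AbsolutelyContinuousOnInterval x t₀ s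
  integrable : ∀ s : ℝ, t₀ ≤ s → (s : EReal) < T →
    IntervalIntegrable (fun t => φ (cvec n q ⬝ᵥ ⇑(x t))) volume t₀ s
  ode : ∀ᵐ t : ℝ, t₀ < t → (t : EReal) < T →
    HasDerivAt x (WithLp.toLp 2 (companion n p *ᵥ ⇑(x t)
      - (k t * φ (cvec n q ⬝ᵥ ⇑(x t))) • bvec n + f t • bvec n)) t

/-- Exponential stability of the null solution of the unforced system. -/
def ExponentiallyStable (n : ℕ) (p q : ℝ[X]) (k φ : ℝ → ℝ) : Prop :=
  ∃ e₁ > 0, ∃ e₂ > 0, ∀ (t₀ : ℝ) (T : EReal) (x : ℝ → E n), 0 ≤ t₀ →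
    IsSolution p q k φ (fun _ => 0) t₀ T x →
    ∀ t : ℝ, t₀ ≤ t → (t : EReal) < T → ‖x t‖ ≤ e₂ * ‖x t₀‖ * Real.exp (-e₁ * (t - t₀))

/-- `L₂`-stability of the forced system. -/
def L2Stable (n : ℕ) (p q : ℝ[X]) (k φ : ℝ → ℝ) : Prop :=
  ∀ η₁ ≥ 0, ∀ η₂ ≥ 0, ∃ η₃ : ℝ, ∀ (t₀ : ℝ) (T : EReal) (x : ℝ → E n) (f : ℝ → ℝ), 0 ≤ t₀ →
    Measurable f → ∫⁻ t in Ioi (0 : ℝ), ENNReal.ofReal (f t ^ 2) < ENNReal.ofReal η₂ →
    IsSolution p q k φ f t₀ T x → ‖x t₀‖ < η₁ →
    ∫⁻ t in {t : ℝ | t₀ < t ∧ (t : EReal) < T}, ENNReal.ofReal (‖x t‖ ^ 2) ≤ ENNReal.ofReal η₃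

/-- The nonlinearity `φ(σ) = σ + σ / (1 + σ²)`. -/
noncomputable def phi (s : ℝ) : ℝ := s + s / (1 + s ^ 2)

lemma admissible_phi : AdmissibleNonlinearity phi := by
  refine ⟨by simp [phi], 1, 2, one_pos, one_lt_two, fun s hs => ?_⟩
  have h1 : 0 < 1 + s ^ 2 := by positivity
  have h2 : s * phi s = s ^ 2 + s ^ 2 / (1 + s ^ 2) := by
    unfold phi
    field_simp
  rw [h2]
  constructor
  · have : 0 ≤ s ^ 2 / (1 + s ^ 2) := by positivity
    linarith
  · have : s ^ 2 / (1 + s ^ 2) ≤ s ^ 2 := div_le_self (by positivity) (by nlinarith)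
    linarith

/-- The system `x' = x - φ(x) + f`. -/
lemma admissible_polys : AdmissiblePolys 1 (X - C (1 : ℝ)) (C (1 : ℝ)) :=
  ⟨monic_X_sub_C 1, natDegree_X_sub_C 1, by simp⟩

lemma admissible_gain : AdmissibleGain (fun _ => 1) := by
  refine ⟨fun T _ => ?_, 1, one_pos, fun t _ => le_rfl⟩
  exact ContDiffOn.absolutelyContinuousOnInterval contDiffOn_const

lemma rhs_eq (x : E 1) (u : ℝ) :
    (companion 1 (X - C (1 : ℝ)) *ᵥ ⇑x - ((1 : ℝ) * phi (cvec 1 (C (1 : ℝ)) ⬝ᵥ ⇑x)) • bvec 1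
      + u • bvec 1) 0 = -(x 0 / (1 + x 0 ^ 2)) + u := by
  simp [companion, cvec, bvec, Matrix.mulVec, dotProduct, phi]

/-- The scalar equation satisfied by a solution. -/
lemma scalar_data {f : ℝ → ℝ} {t₀ : ℝ} {T : EReal} {x : ℝ → E 1}
    (h : IsSolution (X - C (1 : ℝ)) (C (1 : ℝ)) (fun _ => 1) phi f t₀ T x) :
    (∀ s : ℝ, t₀ ≤ s → (s : EReal) < T → AbsolutelyContinuousOnInterval (fun t => x t 0) t₀ s) ∧
    ∀ᵐ t : ℝ, t₀ < t → (t : EReal) < T →
      HasDerivAt (fun t => x t 0) (-(x t 0 / (1 + x t 0 ^ 2)) + f t) t := by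
  constructor
  · intro s hs hsT
    have hl : LipschitzWith 1 (fun v : E 1 => v 0) := by
      apply LipschitzWith.of_dist_le_mul
      intro v w
      rw [NNReal.coe_one, one_mul, dist_eq_norm, dist_eq_norm]
      exact PiLp.norm_apply_le (v - w) 0
    exact Q64.AC.comp hl.lipschitzOnWith (h.absCont s hs hsT) (fun t _ => mem_univ _)
  · filter_upwards [h.ode] with t ht h1 h2
    have h3 := ((EuclideanSpace.proj (𝕜 := ℝ) (0 : Fin 1)).hasFDerivAt.comp_hasDerivAt t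
      (ht h1 h2))
    exact h3.congr_deriv (rhs_eq (x t) (f t))

lemma norm_eq (x : E 1) : ‖x‖ = |x 0| := by
  rw [EuclideanSpace.norm_eq]
  simp [Real.sqrt_sq_eq_abs]

/-- The energy estimate. -/
lemma energy {f y : ℝ → ℝ} {t₀ s : ℝ} (hs : t₀ ≤ s) (hy : AbsolutelyContinuousOnInterval y t₀ s)
    (hf : IntervalIntegrable (fun t => f t ^ 2) volume t₀ s)
    (hode : ∀ᵐ t : ℝ, t ∈ Ioo t₀ s → HasDerivAt y (-(y t / (1 + y t ^ 2)) + f t) t) :
    Real.log (1 + y s ^ 2) + ∫ t in t₀..s, (y t / (1 + y t ^ 2)) ^ 2 ≤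
      Real.log (1 + y t₀ ^ 2) + ∫ t in t₀..s, f t ^ 2 := by
  have hpos : ∀ v : ℝ, 0 < 1 + v ^ 2 := fun v => by positivity
  have hg : ContDiff ℝ 1 (fun v : ℝ => Real.log (1 + v ^ 2)) :=
    ContDiff.log (by fun_prop) (fun v => (hpos v).ne')
  have hyc : ContinuousOn y (uIcc t₀ s) := hy.continuousOn
  have hgc : ContinuousOn (fun t => (y t / (1 + y t ^ 2)) ^ 2) (uIcc t₀ s) :=
    (hyc.div (continuousOn_const.add (hyc.pow 2)) (fun t _ => (hpos (y t)).ne')).pow 2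
  have key := Q64.AC.sub_le (W := fun t => Real.log (1 + y t ^ 2))
    (u := fun t => f t ^ 2 - (y t / (1 + y t ^ 2)) ^ 2) hs
    (Q64.AC.comp_contDiff (g := fun v => Real.log (1 + v ^ 2)) hg hy) (hf.sub hgc.intervalIntegrable)
    (w := fun t => (2 * y t * (-(y t / (1 + y t ^ 2)) + f t)) / (1 + y t ^ 2)) ?_ ?_
  · rw [intervalIntegral.integral_sub hf hgc.intervalIntegrable] at key
    linarith
  · filter_upwards [hode] with t ht htI
    have h1 := (((ht htI).fun_pow 2).const_add 1).log (hpos (y t)).ne'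
    exact h1.congr_deriv (by norm_num)
  · refine Eventually.of_forall fun t _ => ?_
    have h1 : (2 * y t * (-(y t / (1 + y t ^ 2)) + f t)) / (1 + y t ^ 2) =
        -2 * (y t / (1 + y t ^ 2)) ^ 2 + 2 * (y t / (1 + y t ^ 2)) * f t := by
      have := (hpos (y t)).ne'
      field_simp
    rw [h1]
    nlinarith [sq_nonneg (y t / (1 + y t ^ 2) - f t)]

lemma intInt_sq {f : ℝ → ℝ} (hf : Measurable f) {η : ℝ}
    (h : ∫⁻ t in Ioi (0 : ℝ), ENNReal.ofReal (f t ^ 2) < ENNReal.ofReal η) {a b : ℝ} (ha : 0 ≤ a)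
    (hab : a ≤ b) : IntervalIntegrable (fun t => f t ^ 2) volume a b ∧
      ∫ t in a..b, f t ^ 2 ≤ η := by
  have hI : IntegrableOn (fun t => f t ^ 2) (Ioi 0) := by
    refine ⟨(hf.pow_const 2).aestronglyMeasurable, ?_⟩
    rw [hasFiniteIntegral_iff_ofReal (Eventually.of_forall fun t => sq_nonneg _)]
    exact h.trans ENNReal.ofReal_lt_top
  have hsub : Ioc a b ⊆ Ioi (0 : ℝ) := fun t ht => ha.trans_lt ht.1
  refine ⟨(intervalIntegrable_iff_integrableOn_Ioc_of_le hab).mpr (hI.mono_set hsub), ?_⟩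
  rw [intervalIntegral.integral_of_le hab]
  have h1 : ∫ t in Ioc a b, f t ^ 2 ≤ ∫ t in Ioi (0 : ℝ), f t ^ 2 :=
    setIntegral_mono_set hI (Eventually.of_forall fun t => sq_nonneg _)
      (LE.le.eventuallyLE hsub)
  refine h1.trans ?_
  have h2 := ofReal_integral_eq_lintegral_ofReal hI (Eventually.of_forall fun t => sq_nonneg _)
  rw [← h2] at h
  exact ((ENNReal.ofReal_lt_ofReal_iff').mp h).1.le

/-- The forced system is `L₂`-stable. -/
lemma l2stable : L2Stable 1 (X - C (1 : ℝ)) (C (1 : ℝ)) (fun _ => 1) phi := by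
  intro η₁ hη₁ η₂ hη₂
  set L : ℝ := Real.log (1 + η₁ ^ 2) + η₂ with hL
  refine ⟨Real.exp L ^ 2 * L, ?_⟩
  intro t₀ T x f ht₀ hf hfη hx hx0
  obtain ⟨hAC, hode⟩ := scalar_data hx
  have hpos : ∀ v : ℝ, 0 < 1 + v ^ 2 := fun v => by positivity
  have hlog0 : Real.log (1 + x t₀ 0 ^ 2) ≤ Real.log (1 + η₁ ^ 2) := by
    apply Real.log_le_log (hpos _)
    rw [norm_eq] at hx0
    have : x t₀ 0 ^ 2 ≤ η₁ ^ 2 := sq_le_sq' (by linarith [neg_abs_le (x t₀ 0)])
      (by linarith [le_abs_self (x t₀ 0)])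
    linarith
  have hen : ∀ s : ℝ, t₀ ≤ s → (s : EReal) < T →
      Real.log (1 + x s 0 ^ 2) + ∫ t in t₀..s, (x t 0 / (1 + x t 0 ^ 2)) ^ 2 ≤ L := by
    intro s hs hsT
    have hf2 := intInt_sq hf hfη ht₀ hs
    have h := energy hs (hAC s hs hsT) hf2.1 (by
      filter_upwards [hode] with t ht htI
      exact ht htI.1 ((EReal.coe_lt_coe_iff.mpr htI.2).trans hsT))
    linarith [hf2.2]
  have hJ0 : ∀ s : ℝ, t₀ ≤ s → 0 ≤ ∫ t in t₀..s, (x t 0 / (1 + x t 0 ^ 2)) ^ 2 := fun s hs =>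
    intervalIntegral.integral_nonneg hs fun t _ => sq_nonneg _
  have hb : ∀ s : ℝ, t₀ ≤ s → (s : EReal) < T → 1 + x s 0 ^ 2 ≤ Real.exp L := by
    intro s hs hsT
    rw [← Real.log_le_iff_le_exp (hpos _)]
    linarith [hen s hs hsT, hJ0 s hs]
  have hlogn : ∀ s : ℝ, 0 ≤ Real.log (1 + x s 0 ^ 2) := fun s =>
    Real.log_nonneg (by nlinarith [sq_nonneg (x s 0)])
  have hmain : ∀ s : ℝ, t₀ ≤ s → (s : EReal) < T →
      ∫⁻ t in Ioc t₀ s, ENNReal.ofReal (‖x t‖ ^ 2) ≤ ENNReal.ofReal (Real.exp L ^ 2 * L) := by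
    intro s hs hsT
    have hyc : ContinuousOn (fun t => x t 0) (uIcc t₀ s) := (hAC s hs hsT).continuousOn
    have hgc : ContinuousOn (fun t => (x t 0 / (1 + x t 0 ^ 2)) ^ 2) (uIcc t₀ s) :=
      (hyc.div (continuousOn_const.add (hyc.pow 2)) (fun t _ => (hpos (x t 0)).ne')).pow 2
    have h1 : ∫ t in t₀..s, x t 0 ^ 2 ≤ Real.exp L ^ 2 * L := by
      calc ∫ t in t₀..s, x t 0 ^ 2
          ≤ ∫ t in t₀..s, Real.exp L ^ 2 * (x t 0 / (1 + x t 0 ^ 2)) ^ 2 := by
            apply intervalIntegral.integral_mono_on hs (hyc.pow 2).intervalIntegrable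
              (hgc.intervalIntegrable.const_mul _)
            intro t ht
            have h2 := hb t ht.1 ((EReal.coe_le_coe_iff.mpr ht.2).trans_lt hsT)
            change x t 0 ^ 2 ≤ Real.exp L ^ 2 * (x t 0 / (1 + x t 0 ^ 2)) ^ 2
            rw [div_pow, mul_div_assoc', le_div_iff₀ (pow_pos (hpos _) 2)]
            have h3 : (1 + x t 0 ^ 2) ^ 2 ≤ Real.exp L ^ 2 :=
              pow_le_pow_left₀ (hpos _).le h2 2
            nlinarith [sq_nonneg (x t 0)]
        _ = Real.exp L ^ 2 * ∫ t in t₀..s, (x t 0 / (1 + x t 0 ^ 2)) ^ 2 :=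
            intervalIntegral.integral_const_mul _ _
        _ ≤ Real.exp L ^ 2 * L := by
            apply mul_le_mul_of_nonneg_left _ (sq_nonneg _)
            linarith [hen s hs hsT, hlogn s]
    have h2 : ∫⁻ t in Ioc t₀ s, ENNReal.ofReal (‖x t‖ ^ 2) =
        ENNReal.ofReal (∫ t in t₀..s, x t 0 ^ 2) := by
      rw [intervalIntegral.integral_of_le hs, ofReal_integral_eq_lintegral_ofReal]
      · refine lintegral_congr fun t => ?_
        rw [norm_eq, sq_abs]
      · rw [uIcc_of_le hs] at hyc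
        exact ((hyc.pow 2).integrableOn_Icc).mono_set Ioc_subset_Icc_self
      · exact Eventually.of_forall fun t => sq_nonneg _
    rw [h2]
    exact ENNReal.ofReal_le_ofReal h1
  -- exhaust the interval
  let ι := {r : ℚ // t₀ ≤ (r : ℝ) ∧ (((r : ℝ) : ℝ) : EReal) < T}
  have hcov : {t : ℝ | t₀ < t ∧ (t : EReal) < T} ⊆ ⋃ r : ι, Ioc t₀ ((r : ℚ) : ℝ) := by
    rintro t ⟨h1, h2⟩
    obtain ⟨r, hr1, hr2⟩ := EReal.lt_iff_exists_rat_btwn.mp h2
    have hr1' : t < (r : ℝ) := by exact_mod_cast hr1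
    exact mem_iUnion.mpr ⟨⟨r, (h1.trans hr1').le, hr2⟩, h1, hr1'.le⟩
  refine (lintegral_mono_set hcov).trans ?_
  rw [setLIntegral_iUnion_of_directed]
  · exact iSup_le fun r => hmain _ r.2.1 r.2.2
  · intro r s
    rcases le_total (r : ℚ) (s : ℚ) with h | h
    · exact ⟨s, Ioc_subset_Ioc_right (by exact_mod_cast h), subset_rfl⟩
    · exact ⟨r, subset_rfl, Ioc_subset_Ioc_right (by exact_mod_cast h)⟩

/-- The vector field of the unforced scalar equation. -/
noncomputable def vf (v : ℝ) : ℝ := -(v / (1 + v ^ 2))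

lemma lip_vf : LipschitzWith 1 vf := by
  have hpos : ∀ v : ℝ, 0 < 1 + v ^ 2 := fun v => by positivity
  have hd : ∀ v : ℝ, HasDerivAt vf (-((1 - v ^ 2) / (1 + v ^ 2) ^ 2)) v := by
    intro v
    have h1 : HasDerivAt (fun v : ℝ => 1 + v ^ 2) (2 * v) v := by
      simpa using ((hasDerivAt_id v).pow 2).const_add 1
    have h2 := ((hasDerivAt_id v).div h1 (hpos v).ne').neg
    refine h2.congr_deriv ?_
    simp only [id]
    congr 1
    congr 1
    ring
  refine lipschitzWith_of_nnnorm_deriv_le (fun v => (hd v).differentiableAt) fun v => ?_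
  rw [(hd v).deriv, ← NNReal.coe_le_coe, coe_nnnorm, NNReal.coe_one, Real.norm_eq_abs, abs_neg,
    abs_div, abs_of_pos (pow_pos (hpos v) 2), div_le_one (pow_pos (hpos v) 2)]
  rw [abs_le]
  constructor <;> nlinarith [sq_nonneg v, sq_nonneg (v ^ 2)]

/-- Slowly decaying solutions. -/
lemma slow {R τ : ℝ} (hτ : 0 < τ) : ∃ x : ℝ → E 1,
    IsSolution (X - C (1 : ℝ)) (C (1 : ℝ)) (fun _ => 1) phi (fun _ => 0) 0
      ((τ + 1 : ℝ) : EReal) x ∧ ‖x 0‖ = |R| ∧ R ^ 2 - 2 * τ ≤ ‖x τ‖ ^ 2 := by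
  obtain ⟨y, hy0, hy⟩ := Haraux.global_ode (fun _ => vf) 1 (fun _ => lip_vf)
    (lip_vf.continuous.comp continuous_snd) R
  have hx : ∀ t, HasDerivAt (fun t => (WithLp.toLp 2 (fun _ : Fin 1 => y t) : E 1))
      (WithLp.toLp 2 (fun _ : Fin 1 => vf (y t))) t := by
    intro t
    have h1 : HasDerivAt (fun t => (fun _ : Fin 1 => y t)) (fun _ : Fin 1 => vf (y t)) t :=
      hasDerivAt_pi.mpr fun _ => hy t
    exact ((PiLp.continuousLinearEquiv 2 ℝ (fun _ : Fin 1 => ℝ)).symm.hasFDerivAt.comp_hasDerivAt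
      t h1)
  have hyc : Continuous y := continuous_iff_continuousAt.mpr fun t => (hy t).continuousAt
  have hphi : Continuous phi := by
    unfold phi
    exact continuous_id.add (continuous_id.div (by fun_prop) fun v => by positivity)
  refine ⟨fun t => WithLp.toLp 2 (fun _ : Fin 1 => y t), ⟨?_, ?_, ?_, ?_⟩, ?_, ?_⟩
  · exact EReal.coe_lt_coe_iff.mpr (by linarith)
  · intro s hs _
    have hC : ContDiff ℝ 1 (fun t => (WithLp.toLp 2 (fun _ : Fin 1 => y t) : E 1)) := by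
      rw [contDiff_one_iff_deriv]
      refine ⟨fun t => (hx t).differentiableAt, ?_⟩
      have : deriv (fun t => (WithLp.toLp 2 (fun _ : Fin 1 => y t) : E 1)) =
          fun t => (WithLp.toLp 2 (fun _ : Fin 1 => vf (y t)) : E 1) :=
        funext fun t => (hx t).deriv
      rw [this]
      exact (PiLp.continuous_toLp 2 _).comp
        (continuous_pi fun _ => lip_vf.continuous.comp hyc)
    exact hC.contDiffOn.absolutelyContinuousOnInterval
  · intro s hs _
    apply Continuous.intervalIntegrable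
    refine hphi.comp ?_
    simp only [cvec, dotProduct]
    fun_prop
  · refine Eventually.of_forall fun t h1 h2 => ?_
    refine (hx t).congr_deriv ?_
    congr 1
    funext i
    have hi : i = 0 := Subsingleton.elim _ _
    subst hi
    rw [rhs_eq (WithLp.toLp 2 (fun _ : Fin 1 => y t)) 0]
    simp [vf]
  · rw [norm_eq]
    simp [hy0]
  · rw [norm_eq, sq_abs]
    have hm : Monotone fun t => y t ^ 2 + 2 * t := by
      have hd : ∀ t, HasDerivAt (fun t => y t ^ 2 + 2 * t) (2 * y t * vf (y t) + 2) t := by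
        intro t
        have := ((hy t).fun_pow 2).add ((hasDerivAt_id t).const_mul 2)
        exact this.congr_deriv (by norm_num)
      refine monotone_of_deriv_nonneg (fun t => (hd t).differentiableAt) fun t => ?_
      rw [(hd t).deriv]
      have hpos : 0 < 1 + y t ^ 2 := by positivity
      have : 2 * y t * vf (y t) + 2 = 2 / (1 + y t ^ 2) := by
        unfold vf
        field_simp
        ring
      rw [this]
      positivity
    have := hm hτ.le
    simp only [hy0] at this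
    simp only
    linarith

/-- The unforced system is not exponentially stable. -/
lemma not_expStable :
    ¬ ExponentiallyStable 1 (X - C (1 : ℝ)) (C (1 : ℝ)) (fun _ => 1) phi := by
  rintro ⟨e₁, he₁, e₂, he₂, h⟩
  obtain ⟨τ, hτ0, hτ⟩ : ∃ τ : ℝ, 0 < τ ∧ e₂ * Real.exp (-e₁ * τ) ≤ 1 / 2 := by
    have hlim : Tendsto (fun τ : ℝ => e₂ * Real.exp (-e₁ * τ)) atTop (𝓝 (e₂ * 0)) := by
      refine Tendsto.const_mul _ (Real.tendsto_exp_atBot.comp ?_)
      exact tendsto_id.const_mul_atTop_of_neg (by linarith)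
    rw [mul_zero] at hlim
    obtain ⟨τ, h1, h2⟩ := ((hlim.eventually (ge_mem_nhds (by norm_num : (0 : ℝ) < 1 / 2))).and
      (eventually_gt_atTop 0)).exists
    exact ⟨τ, h2, h1⟩
  obtain ⟨x, hx, hx0, hxτ⟩ := slow (R := 2 * Real.sqrt τ) hτ0
  have hb := h 0 _ x le_rfl hx τ hτ0.le (EReal.coe_lt_coe_iff.mpr (by linarith))
  rw [hx0, sub_zero, abs_of_nonneg (by positivity)] at hb
  have hs : Real.sqrt τ ^ 2 = τ := Real.sq_sqrt hτ0.le
  have hs0 : 0 < Real.sqrt τ := Real.sqrt_pos.mpr hτ0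
  have hb2 : ‖x τ‖ ≤ Real.sqrt τ := by
    calc ‖x τ‖ ≤ e₂ * (2 * Real.sqrt τ) * Real.exp (-e₁ * τ) := hb
      _ = (e₂ * Real.exp (-e₁ * τ)) * (2 * Real.sqrt τ) := by ring
      _ ≤ 1 / 2 * (2 * Real.sqrt τ) := mul_le_mul_of_nonneg_right hτ (by positivity)
      _ = Real.sqrt τ := by ring
  have hb3 : ‖x τ‖ ^ 2 ≤ τ := by
    exact (pow_le_pow_left₀ (norm_nonneg _) hb2 2).trans_eq hs
  nlinarith

/-- The equivalence fails: for `p(s) = s - 1`, `q = 1`, `k = 1` and the real-analytic nonlinearity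
`φ(σ) = σ + σ / (1 + σ²)` all the standing assumptions hold, the forced system is `L₂`-stable, but
the null solution of the unforced system is not exponentially stable. -/
theorem result :
    ∃ (n : ℕ) (p q : ℝ[X]) (k φ : ℝ → ℝ), AdmissiblePolys n p q ∧ AdmissibleGain k ∧
      AdmissibleNonlinearity φ ∧ AnalyticOnNhd ℝ φ univ ∧
      L2Stable n p q k φ ∧ ¬ ExponentiallyStable n p q k φ := by
  refine ⟨1, X - C (1 : ℝ), C (1 : ℝ), fun _ => 1, phi, admissible_polys, admissible_gain,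
    admissible_phi, ?_, l2stable, not_expStable⟩
  intro s _
  unfold phi
  refine analyticAt_id.add (analyticAt_id.div (analyticAt_const.add (analyticAt_id.pow 2)) ?_)
  change (1 : ℝ) + s ^ 2 ≠ 0
  positivity

end Pool.Agent.Results.MP_d56d33_an.LureEquivalenceFails
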